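import Mathlib

namespace Pool.Agent.Lib.MP_cf7718_co

/-- Intercept of the tangent line at `x` to `y ↦ (y-1)/(y(y-2))`. -/
noncomputable def Kc (x : ℝ) : ℝ := 1 / x + 1 / (x - 2) + 1 / (x - 2) ^ 2

/-- Minus twice the slope of the tangent line at `x` to `y ↦ (y-1)/(y(y-2))`. -/
noncomputable def Lc (x : ℝ) : ℝ := 1 / x ^ 2 + 1 / (x - 2) ^ 2

lemma Lc_pos {x : ℝ} (hx : 2 < x) : 0 < Lc x := by
  have h1 : 0 < x - 2 := by linarith
  have h2 : 0 < x := by linarith
  unfold Lc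
  positivity

/-- The tangent line inequality. -/
lemma tangent_le {x y : ℝ} (hx : 2 < x) (hy : 2 < y) :
    Kc x - Lc x / 2 * y ≤ (1 / y + 1 / (y - 2)) / 2 := by
  have h1 : 0 < x - 2 := by linarith
  have h2 : 0 < x := by linarith
  have h3 : 0 < y - 2 := by linarith
  have h4 : 0 < y := by linarith
  have e1 : ∀ a b : ℝ, 0 < a → 0 < b → 2 / a - b / a ^ 2 ≤ 1 / b := by
    intro a b ha hb
    rw [div_sub_div _ _ ha.ne' (by positivity), div_le_div_iff₀ (by positivity) hb]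
    nlinarith [sq_nonneg (a - b), mul_pos ha hb, mul_nonneg ha.le (sq_nonneg (a - b))]
  have h5 := e1 x y h2 h4
  have h6 := e1 (x - 2) (y - 2) h1 h3
  have h7 : Kc x - Lc x / 2 * y
      = ((2 / x - y / x ^ 2) + (2 / (x - 2) - (y - 2) / (x - 2) ^ 2)) / 2 := by
    unfold Kc Lc
    field_simp
    ring
  rw [h7]
  linarith

/-- The diagonal case. -/
lemma diag_le {K L : ℝ} (hL : 0 ≤ L)
    (hT : ∀ y : ℝ, 2 < y → K - L / 2 * y ≤ (1 / y + 1 / (y - 2)) / 2) {c q : ℝ} (hq : 0 ≤ q)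
    (hqc : q ≤ c) (h : c ^ 2 ≤ q + q ^ 2) : 2 * ((c - q) * (K - c)) ≤ L := by
  rcases eq_or_lt_of_le hqc with h0 | h0
  · rw [← h0]
    simpa using hL
  · set t := c - q with ht
    have ht0 : 0 < t := by rw [ht]; linarith
    have hc : c = q + t := by rw [ht]; ring
    have ht2 : t < 1 / 2 := by
      by_contra hcon
      push Not at hcon
      rw [hc] at h
      nlinarith
    have h1t : 0 < 1 - 2 * t := by linarith
    have hT1 := hT (1 / t) (by rw [lt_div_iff₀ ht0]; linarith)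
    have e1 : 1 / (1 / t) = t := by field_simp
    have e2 : 1 / (1 / t - 2) = t / (1 - 2 * t) := by
      rw [div_sub' ht0.ne']
      field_simp
    rw [e1, e2] at hT1
    -- c ≥ t(1-t)/(1-2t)
    have hc2 : (t + t / (1 - 2 * t)) / 2 ≤ c := by
      have hne : 1 - 2 * t ≠ 0 := h1t.ne'
      have e3 : (t + t / (1 - 2 * t)) / 2 = t * (1 - t) / (1 - 2 * t) := by
        have e4 : t / (1 - 2 * t) * (1 - 2 * t) = t := div_mul_cancel₀ t hne
        rw [eq_div_iff hne]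
        linear_combination e4 / 2
      rw [e3, div_le_iff₀ h1t]
      rw [hc] at h ⊢
      nlinarith
    have h3 : K - c ≤ L / 2 * (1 / t) := by linarith
    have h4 : t * (K - c) ≤ L / 2 := by
      calc t * (K - c) ≤ t * (L / 2 * (1 / t)) := mul_le_mul_of_nonneg_left h3 ht0.le
        _ = L / 2 := by field_simp
    linarith

/-- The quadratic function `H`. -/
def Hf (K s q : ℝ) : ℝ := 2 * q ^ 2 + (s + 2 - 2 * K) * q - s ^ 2 + K * s

lemma Hf_convex {K s q a b : ℝ} {L : ℝ} (hab : a < b) (ha : a ≤ q) (hb : q ≤ b)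
    (h1 : Hf K s a ≤ L) (h2 : Hf K s b ≤ L) : Hf K s q ≤ L := by
  have h3 : (b - a) * Hf K s q ≤ (b - q) * Hf K s a + (q - a) * Hf K s b := by
    unfold Hf
    nlinarith [mul_nonneg (mul_nonneg (sub_nonneg.mpr ha) (sub_nonneg.mpr hb))
      (sub_nonneg.mpr hab.le)]
  have h4 : (b - q) * Hf K s a ≤ (b - q) * L :=
    mul_le_mul_of_nonneg_left h1 (by linarith)
  have h5 : (q - a) * Hf K s b ≤ (q - a) * L :=
    mul_le_mul_of_nonneg_left h2 (by linarith)
  have h6 : (b - a) * Hf K s q ≤ (b - a) * L := by linarith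
  exact le_of_mul_le_mul_left h6 (by linarith)

/-- The inverse of `q ↦ q + q^2`. -/
noncomputable def phi (P : ℝ) : ℝ := (-1 + Real.sqrt (1 + 4 * P)) / 2

lemma phi_sq {P : ℝ} (hP : 0 ≤ P) : phi P + phi P ^ 2 = P := by
  have h := Real.sq_sqrt (show (0 : ℝ) ≤ 1 + 4 * P by linarith)
  unfold phi
  nlinarith [h]

lemma phi_nonneg {P : ℝ} (hP : 0 ≤ P) : 0 ≤ phi P := by
  have h : (1 : ℝ) ≤ Real.sqrt (1 + 4 * P) := by
    rw [Real.one_le_sqrt]
    linarith
  unfold phi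
  linarith

lemma le_phi {P q : ℝ} (hq : 0 ≤ q) (h : q + q ^ 2 ≤ P) : q ≤ phi P := by
  have hP : 0 ≤ P := le_trans (by positivity) h
  have h1 := phi_sq hP
  have h2 := phi_nonneg hP
  by_contra hcon
  push Not at hcon
  nlinarith

lemma phi_le {P q : ℝ} (hq : 0 ≤ q) (hP : 0 ≤ P) (h : P ≤ q + q ^ 2) : phi P ≤ q := by
  have h1 := phi_sq hP
  have h2 := phi_nonneg hP
  by_contra hcon
  push Not at hcon
  nlinarith

/-- `H` on the diagonal. -/
lemma Hf_diag {K L : ℝ} (hL : 0 ≤ L)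
    (hT : ∀ y : ℝ, 2 < y → K - L / 2 * y ≤ (1 / y + 1 / (y - 2)) / 2) {s : ℝ} (hs : 0 ≤ s) :
    Hf K s (phi (s ^ 2 / 4)) ≤ L := by
  have hP : (0 : ℝ) ≤ s ^ 2 / 4 := by positivity
  have h1 := phi_sq hP
  have h2 := phi_nonneg hP
  set q := phi (s ^ 2 / 4) with hq
  have h3 : q ≤ s / 2 := by
    rw [hq]
    refine phi_le (by positivity) hP ?_
    nlinarith
  have h4 := diag_le hL hT h2 h3 (by nlinarith)
  have h5 : Hf K s q = 2 * ((s / 2 - q) * (K - s / 2)) := by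
    unfold Hf
    nlinarith [h1]
  rw [h5]
  exact h4

/-- The linear part: the inequality holds as soon as it holds at a smaller `q`. -/
lemma lin_of_left {K L : ℝ} (hL : 0 ≤ L)
    (hT : ∀ y : ℝ, 2 < y → K - L / 2 * y ≤ (1 / y + 1 / (y - 2)) / 2) {u v q : ℝ}
    (hq : 0 ≤ q) (hqu : q ≤ u) (hqv : q ≤ v) (huv : u * v ≤ q + q ^ 2) {a : ℝ} (haq : a ≤ q)
    (ha : Hf K (u + v) a ≤ L) : (K - u) * (u - q) + (K - v) * (v - q) ≤ L := by
  set s := u + v with hs
  have hs0 : 0 ≤ s := by rw [hs]; linarith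
  have hlin : (K - u) * (u - q) + (K - v) * (v - q)
      = -s ^ 2 + (K + q) * s + 2 * (u * v) - 2 * K * q := by
    rw [hs]
    ring
  rcases le_or_gt (s ^ 2 / 4) (q + q ^ 2) with h | h
  · -- diagonal case
    have h1 := diag_le hL hT (c := s / 2) hq (by rw [hs]; linarith) (by nlinarith)
    rw [hlin]
    have h2 : 2 * (u * v) ≤ s ^ 2 / 2 := by
      rw [hs]
      nlinarith [sq_nonneg (u - v)]
    nlinarith
  · have h1 := Hf_diag hL hT hs0
    have h2 : q ≤ phi (s ^ 2 / 4) := le_phi hq h.le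
    rcases eq_or_lt_of_le (haq.trans h2) with h3 | h3
    · have h4 : a = q := le_antisymm haq (by rw [h3]; exact h2)
      rw [hlin]
      have h5 : Hf K s q ≤ L := by rw [← h4]; exact ha
      unfold Hf at h5
      nlinarith
    · have h4 := Hf_convex h3 haq h2 ha h1
      rw [hlin]
      unfold Hf at h4
      nlinarith

/-- The linear inequality when `σ = u + v` is not exceptional. -/
lemma lin_of_sum {K L : ℝ} (hL : 0 ≤ L) (hKL : K - L ≤ 1)
    (hT : ∀ y : ℝ, 2 < y → K - L / 2 * y ≤ (1 / y + 1 / (y - 2)) / 2) {u v q : ℝ}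
    (hq : 0 < q) (hqu : q ≤ u) (hqv : q ≤ v) (huv : u * v ≤ q + q ^ 2)
    (h : 1 ≤ u + v ∨ (u + v) * (K - (u + v)) ≤ L) :
    (K - u) * (u - q) + (K - v) * (v - q) ≤ L := by
  rcases h with h | h
  · refine lin_of_left hL hT hq.le hqu hqv huv (a := (u + v - 1) / 2) ?_ ?_
    · nlinarith [mul_nonneg (sub_nonneg.mpr hqu) (sub_nonneg.mpr hqv)]
    · unfold Hf
      nlinarith
  · refine lin_of_left hL hT hq.le hqu hqv huv (a := 0) hq.le ?_
    unfold Hf
    nlinarith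

end Pool.Agent.Lib.MP_cf7718_co
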