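import Mathlib
import Pool.Agent.Lib.MP_cf7718_co.Cert

namespace Pool.Agent.Lib.MP_cf7718_co

lemma quad_nonneg {a b C z y : ℝ} (ha : 0 < a) (h : z ^ 2 * b ^ 2 ≤ a * C) :
    0 ≤ 4 * z ^ 2 * a * y ^ 2 - 4 * z ^ 2 * b * y + C := by
  have h1 : a * (4 * z ^ 2 * a * y ^ 2 - 4 * z ^ 2 * b * y + C)
      = (2 * z * a * y - z * b) ^ 2 + (a * C - z ^ 2 * b ^ 2) := by ring
  have h2 : 0 ≤ a * (4 * z ^ 2 * a * y ^ 2 - 4 * z ^ 2 * b * y + C) := by
    rw [h1]
    have := sq_nonneg (2 * z * a * y - z * b)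
    linarith
  exact nonneg_of_mul_nonneg_right h2 ha

/-- The cubic inequality behind the exceptional case. -/
lemma cubic_nonneg {z p y : ℝ} (hz0 : 21 / 50 ≤ z) (hz1 : z ≤ 1) (hp1 : 16 / 25 - z / 2 ≤ p)
    (hp2 : 389 / 1000 ≤ p) (hp3 : p ≤ 43 / 100) (hy : 0 ≤ y) :
    0 ≤ 8 * z ^ 2 * y ^ 3 - 4 * z ^ 2 * (4 + p - z) * y ^ 2 + 4 * z ^ 2 * (z + p) * y
      + (1 + z) * (z + p) ^ 2 := by
  have hz : 0 < z := by linarith
  rcases le_or_gt z (51 / 100) with h | h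
  · have hy3 : 0 ≤ 8 * z ^ 2 * (y * (y - 61 / 50) ^ 2) := by positivity
    have ha : 0 < 22 / 25 - p + z := by linarith
    have key : z ^ 2 * (3721 / 1250 - (z + p)) ^ 2
        ≤ (22 / 25 - p + z) * ((1 + z) * (z + p) ^ 2) := by
      have e1 : (3721 / 1250 - (z + p)) ^ 2 ≤ (3721 / 1250 - (16 / 25 + z / 2)) ^ 2 := by
        apply pow_le_pow_left₀
        · linarith
        · linarith
      have e2 : (16 / 25 + z / 2) ^ 2 ≤ (z + p) ^ 2 := by
        apply pow_le_pow_left₀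
        · linarith
        · linarith
      have e3 : z ^ 2 * (3721 / 1250 - (16 / 25 + z / 2)) ^ 2
          ≤ (9 / 20 + z) * ((1 + z) * (16 / 25 + z / 2) ^ 2) := by
        nlinarith [mul_nonneg (sub_nonneg.mpr hz0) (sub_nonneg.mpr h),
          mul_nonneg (mul_nonneg (sub_nonneg.mpr hz0) (sub_nonneg.mpr h)) hz.le]
      calc z ^ 2 * (3721 / 1250 - (z + p)) ^ 2
          ≤ z ^ 2 * (3721 / 1250 - (16 / 25 + z / 2)) ^ 2 := by gcongr
        _ ≤ (9 / 20 + z) * ((1 + z) * (16 / 25 + z / 2) ^ 2) := e3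
        _ ≤ (22 / 25 - p + z) * ((1 + z) * (z + p) ^ 2) := by
          have : 9 / 20 + z ≤ 22 / 25 - p + z := by linarith
          gcongr
    have h1 := quad_nonneg (y := y) ha key
    nlinarith [h1, hy3]
  · have hy3 : 0 ≤ 8 * z ^ 2 * (y * (y - 23 / 20) ^ 2) := by positivity
    have ha : 0 < 3 / 5 - p + z := by linarith
    have key : z ^ 2 * (529 / 200 - (z + p)) ^ 2
        ≤ (3 / 5 - p + z) * ((1 + z) * (z + p) ^ 2) := by
      have e1 : (529 / 200 - (z + p)) ^ 2 ≤ (529 / 200 - (z + 389 / 1000)) ^ 2 := by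
        apply pow_le_pow_left₀
        · linarith
        · linarith
      have e2 : (z + 389 / 1000) ^ 2 ≤ (z + p) ^ 2 := by
        apply pow_le_pow_left₀
        · linarith
        · linarith
      have e3 : z ^ 2 * (529 / 200 - (z + 389 / 1000)) ^ 2
          ≤ (17 / 100 + z) * ((1 + z) * (z + 389 / 1000) ^ 2) := by
        nlinarith [mul_nonneg (sub_nonneg.mpr h.le) (sub_nonneg.mpr hz1),
          mul_nonneg (mul_nonneg (sub_nonneg.mpr h.le) (sub_nonneg.mpr h.le)) hz.le,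
          sq_nonneg (z - 51 / 100)]
      calc z ^ 2 * (529 / 200 - (z + p)) ^ 2
          ≤ z ^ 2 * (529 / 200 - (z + 389 / 1000)) ^ 2 := by gcongr
        _ ≤ (17 / 100 + z) * ((1 + z) * (z + 389 / 1000) ^ 2) := e3
        _ ≤ (3 / 5 - p + z) * ((1 + z) * (z + p) ^ 2) := by
          have : 17 / 100 + z ≤ 3 / 5 - p + z := by linarith
          gcongr
    have h1 := quad_nonneg (y := y) ha key
    nlinarith [h1, hy3]

/-- The parameter hypotheses of the second case. -/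
structure Par2 (K L : ℝ) : Prop where
  kap : K - L ≤ 1
  tan : ∀ y : ℝ, 2 < y → K - L / 2 * y ≤ (1 / y + 1 / (y - 2)) / 2
  kap2 : 3 / 4 ≤ K - L
  L1 : L < 1
  L0 : 0 < L
  K2 : K < 2
  p0 : 0 < 4 * L - 2 * K + 1
  p1 : 4 * L - 2 * K + 1 ≤ 43 / 100

lemma Par2.t33 {K L : ℝ} (h : Par2 K L) : K - L / 2 * (33 / 10) ≤ 230 / 429 := by
  have := h.tan (33 / 10) (by norm_num)
  norm_num at this ⊢
  exact this

/-- Bounds for exceptional `u`. -/
lemma exc_bounds {K L u : ℝ} (h : Par2 K L) (hu : L ≤ u * (K - u)) (hu1 : u ≤ 1) :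
    0 < 2 * u - 1 ∧ 16 / 25 - (2 * u - 1) / 2 ≤ 4 * L - 2 * K + 1 ∧
      389 / 1000 ≤ 4 * L - 2 * K + 1 := by
  obtain ⟨p, hp⟩ : ∃ p, p = 4 * L - 2 * K + 1 := ⟨_, rfl⟩
  obtain ⟨z, hz⟩ : ∃ z, z = 2 * u - 1 := ⟨_, rfl⟩
  obtain ⟨k, hk⟩ : ∃ k, k = K - L := ⟨_, rfl⟩
  have hLe : L = k + (p - 1) / 2 := by rw [hk, hp]; ring
  have hKe : K = 2 * k + (p - 1) / 2 := by rw [hk, hp]; ring
  have hue : u = (1 + z) / 2 := by rw [hz]; ring
  have h1 := h.kap
  have h2 := h.kap2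
  have h3 := h.p0
  have h4 := h.t33
  have h5 := h.p1
  rw [← hk] at h1 h2
  rw [← hp] at h3 h5
  rw [← hp, ← hz]
  rw [hLe, hKe] at h4
  rw [hLe, hKe, hue] at hu
  have hz1 : z ≤ 1 := by linarith
  have hex : p * (1 - z) ≤ z * (4 * k - 3 - z) := by nlinarith
  have hz0 : 0 < z := by
    by_contra hcon
    push Not at hcon
    have : 0 < p * (1 - z) := by
      apply mul_pos h3
      linarith
    nlinarith
  have hk' : k ≤ (230 / 429 - 13 / 40 + 13 / 40 * p) / (7 / 20) := by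
    rw [le_div_iff₀ (by norm_num)]
    linarith
  have hmain : z * (z + (3 - 4 * (230 / 429 - 13 / 40) / (7 / 20)))
      ≤ p * ((1 + 13 / 40 * 4 / (7 / 20)) * z - 1) := by
    have h6 : z * (4 * k - 3 - z)
        ≤ z * (4 * ((230 / 429 - 13 / 40 + 13 / 40 * p) / (7 / 20)) - 3 - z) := by
      apply mul_le_mul_of_nonneg_left _ hz0.le
      linarith
    nlinarith
  have hpos : 0 < (1 + 13 / 40 * 4 / (7 / 20)) * z - 1 := by
    have h7 : 0 < z * (z + (3 - 4 * (230 / 429 - 13 / 40) / (7 / 20))) := by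
      apply mul_pos hz0
      norm_num
      linarith
    by_contra hcon
    push Not at hcon
    have := mul_nonneg h3.le (neg_nonneg.mpr hcon)
    nlinarith
  refine ⟨hz0, ?_, ?_⟩
  · have h8 : (16 / 25 - z / 2) * ((1 + 13 / 40 * 4 / (7 / 20)) * z - 1)
        ≤ p * ((1 + 13 / 40 * 4 / (7 / 20)) * z - 1) := by
      refine le_trans ?_ hmain
      norm_num
      nlinarith [sq_nonneg (z - 43 / 100), sq_nonneg (z - 437 / 1000)]
    exact le_of_mul_le_mul_right h8 hpos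
  · have h8 : (389 / 1000) * ((1 + 13 / 40 * 4 / (7 / 20)) * z - 1)
        ≤ p * ((1 + 13 / 40 * 4 / (7 / 20)) * z - 1) := by
      refine le_trans ?_ hmain
      norm_num
      nlinarith [sq_nonneg (z - 6234 / 10000)]
    exact le_of_mul_le_mul_right h8 hpos

end Pool.Agent.Lib.MP_cf7718_co
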