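import Mathlib
import Pool.Agent.Lib.MP_cf7718_co.Cert2

namespace Pool.Agent.Lib.MP_cf7718_co

/-- The slope used for exceptional vertices. -/
noncomputable def slope (K L u : ℝ) : ℝ := (2 * L - K + u) / (2 * u - 1)

lemma slope_eq {K L u : ℝ} (hz : 0 < 2 * u - 1) :
    slope K L u = ((2 * u - 1) + (4 * L - 2 * K + 1)) / (2 * (2 * u - 1)) := by
  unfold slope
  rw [div_eq_div_iff hz.ne' (by positivity)]
  ring

lemma slope_pos {K L u : ℝ} (h : Par2 K L) (hz : 0 < 2 * u - 1) : 0 < slope K L u := by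
  rw [slope_eq hz]
  have := h.p0
  positivity

/-- Exceptional `u`, arbitrary `v`. -/
lemma en_ineq {K L u v q : ℝ} (h : Par2 K L) (hu : L ≤ u * (K - u)) (hu1 : u ≤ 1)
    (hq : 0 ≤ q) (hqv : q ≤ v) (huv : u * v ≤ q + q ^ 2) :
    (K - v) * (v - q) ≤ slope K L u * q := by
  obtain ⟨hz, hp1, hp2⟩ := exc_bounds h hu hu1
  have hm := slope_pos h hz
  have hme := slope_eq (K := K) (L := L) hz
  set m := slope K L u with hmdef
  have hp3 := h.p1
  obtain ⟨p, hp⟩ : ∃ p, p = 4 * L - 2 * K + 1 := ⟨_, rfl⟩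
  obtain ⟨z, hzz⟩ : ∃ z, z = 2 * u - 1 := ⟨_, rfl⟩
  rw [← hp] at hp1 hp2 hp3 hme
  rw [← hzz] at hz hp1 hme
  have hmz : 2 * z * m = z + p := by
    rw [hme]
    field_simp
  have hue : u = (1 + z) / 2 := by rw [hzz]; ring
  have hz42 : 21 / 50 ≤ z := by linarith
  have hz1 : z ≤ 1 := by linarith
  rcases le_or_gt K v with hKv | hKv
  · have h1 : (K - v) * (v - q) ≤ 0 :=
      mul_nonpos_of_nonpos_of_nonneg (by linarith) (by linarith)
    have h2 : 0 ≤ m * q := by positivity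
    linarith
  · by_contra hcon
    push Not at hcon
    set y := K - v with hy
    have hy0 : 0 < y := by rw [hy]; linarith
    have hv : 0 < v := by
      rcases eq_or_lt_of_le (hq.trans hqv) with h0 | h0
      · exfalso
        have hq0 : q = 0 := le_antisymm (by rw [h0]; exact hqv) hq
        rw [← h0, hq0] at hcon
        simp at hcon
      · exact h0
    have h1 : q * (m + y) < y * v := by linarith
    have hmy : 0 < m + y := by positivity
    -- cubic
    have hcub := cubic_nonneg hz42 hz1 hp1 hp2 hp3 hy0.le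
    have hK : 1 + 2 * K ≤ 4 + p := by
      have := h.kap
      linarith
    have hG : 0 ≤ u * (m + y) ^ 2 - y * (m + y) - y ^ 2 * v := by
      have hvy : v = K - y := by rw [hy]; ring
      have e1 : 8 * z ^ 2 * (u * (m + y) ^ 2 - y * (m + y) - y ^ 2 * v)
          = 8 * z ^ 2 * y ^ 3 - 4 * z ^ 2 * (1 + 2 * K - z) * y ^ 2
            + 4 * z * (2 * z * m) * z * y + (1 + z) * (2 * z * m) ^ 2 := by
        rw [hue, hvy]
        ring
      rw [hmz] at e1
      have e2 : 4 * z ^ 2 * (1 + 2 * K - z) * y ^ 2 ≤ 4 * z ^ 2 * (4 + p - z) * y ^ 2 := by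
        gcongr
      have e3 : 0 ≤ 8 * z ^ 2 * (u * (m + y) ^ 2 - y * (m + y) - y ^ 2 * v) := by
        rw [e1]
        nlinarith [hcub, e2]
      exact nonneg_of_mul_nonneg_right e3 (by positivity)
    -- contradiction
    have h2 : (q + q ^ 2) * (m + y) ^ 2 < (y * (m + y) + y ^ 2 * v) * v := by
      have h3 : q * (m + y) * (m + y) < y * v * (m + y) := mul_lt_mul_of_pos_right h1 hmy
      have h4 : (q * (m + y)) ^ 2 < (y * v) ^ 2 := by
        apply pow_lt_pow_left₀ h1 (by positivity) (by norm_num)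
      nlinarith
    have h5 : u * v * (m + y) ^ 2 ≤ (q + q ^ 2) * (m + y) ^ 2 := by gcongr
    have h6 : 0 ≤ (u * (m + y) ^ 2 - y * (m + y) - y ^ 2 * v) * v := mul_nonneg hG hv.le
    nlinarith

/-- Both exceptional. -/
lemma ee_ineq {K L u v q : ℝ} (h : Par2 K L) (hu : L ≤ u * (K - u)) (hu1 : u ≤ 1)
    (hv : L ≤ v * (K - v)) (hv1 : v ≤ 1) (hq : 0 ≤ q) (huv : u * v ≤ q + q ^ 2) :
    L ≤ (slope K L u + slope K L v) * q := by
  obtain ⟨hz1, hp1, -⟩ := exc_bounds h hu hu1
  obtain ⟨hz2, hp2, -⟩ := exc_bounds h hv hv1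
  rw [slope_eq hz1, slope_eq hz2]
  obtain ⟨p, hp⟩ : ∃ p, p = 4 * L - 2 * K + 1 := ⟨_, rfl⟩
  obtain ⟨a, ha⟩ : ∃ a, a = 2 * u - 1 := ⟨_, rfl⟩
  obtain ⟨b, hb⟩ : ∃ b, b = 2 * v - 1 := ⟨_, rfl⟩
  have hp0 := h.p0
  rw [← hp] at hp0 hp1 hp2 ⊢
  rw [← ha] at hz1 hp1 ⊢
  rw [← hb] at hz2 hp2 ⊢
  have hLp : 2 * L ≤ 1 + p := by
    have := h.kap
    linarith
  set ζ := Real.sqrt (a * b) with hζ
  have hζ0 : 0 < ζ := Real.sqrt_pos.mpr (mul_pos hz1 hz2)
  have hζ2 : ζ ^ 2 = a * b := Real.sq_sqrt (mul_pos hz1 hz2).le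
  have hζ1 : ζ ≤ 1 := by
    have h1 : a ≤ 1 := by linarith
    have h2 : b ≤ 1 := by linarith
    exact Real.sqrt_le_iff.mpr ⟨by norm_num, by nlinarith⟩
  have hpζ : 16 / 25 - ζ / 2 ≤ p := by
    rcases le_total a b with hab | hab
    · have : a ≤ ζ := Real.le_sqrt_of_sq_le (by nlinarith)
      linarith
    · have : b ≤ ζ := Real.le_sqrt_of_sq_le (by nlinarith)
      linarith
  have hsum2 : 2 * ζ ≤ a + b := by
    nlinarith [sq_nonneg (a - b), sq_nonneg (a + b - 2 * ζ)]
  -- lower bound of the slopes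
  have hms : (ζ + p) / ζ ≤ (a + p) / (2 * a) + (b + p) / (2 * b) := by
    have e1 : (a + p) / (2 * a) + (b + p) / (2 * b) = 1 + p * (a + b) / (2 * (a * b)) := by
      field_simp
      ring
    have e2 : (ζ + p) / ζ = 1 + p / ζ := by
      field_simp
    rw [e1, e2, ← hζ2]
    have e3 : p / ζ ≤ p * (a + b) / (2 * ζ ^ 2) := by
      rw [div_le_div_iff₀ hζ0 (by positivity)]
      nlinarith [mul_pos hp0 hζ0, mul_le_mul_of_nonneg_left hsum2 (mul_pos hp0 hζ0).le]
    linarith
  by_contra hcon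
  push Not at hcon
  have h1 : (ζ + p) / ζ * q < L := lt_of_le_of_lt (mul_le_mul_of_nonneg_right hms hq) hcon
  have h2 : 2 * ((ζ + p) * q) < (1 + p) * ζ := by
    have e1 : (ζ + p) / ζ * q * ζ = (ζ + p) * q := by field_simp
    have e2 : (ζ + p) / ζ * q * ζ < L * ζ := mul_lt_mul_of_pos_right h1 hζ0
    rw [e1] at e2
    nlinarith
  have h3 : ((1 + ζ) / 2) ^ 2 ≤ u * v := by
    have hue : u = (1 + a) / 2 := by rw [ha]; ring
    have hve : v = (1 + b) / 2 := by rw [hb]; ring
    rw [hue, hve]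
    nlinarith
  have hF : (1 + p) * ζ * (3 * ζ + 2 * p + p * ζ) ≤ (1 + ζ) ^ 2 * (ζ + p) ^ 2 := by
    have e1 : (1 + ζ) ^ 2 * (ζ + p) ^ 2 - (1 + p) * ζ * (3 * ζ + 2 * p + p * ζ)
        = p ^ 2 + 2 * ζ ^ 3 * p + ζ ^ 2 * (ζ ^ 2 + 2 * ζ - 2) := by ring
    have e2 : (16 / 25 - ζ / 2) ^ 2 ≤ p ^ 2 := by
      apply pow_le_pow_left₀ _ hpζ
      linarith
    have e3 : 2 * ζ ^ 3 * (16 / 25 - ζ / 2) ≤ 2 * ζ ^ 3 * p := by gcongr
    have e4 : 0 ≤ (16 / 25 - ζ / 2) ^ 2 + 2 * ζ ^ 3 * (16 / 25 - ζ / 2)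
        + ζ ^ 2 * (ζ ^ 2 + 2 * ζ - 2) := by
      nlinarith [mul_nonneg hζ0.le (sq_nonneg (ζ - 489 / 1000)), sq_nonneg (ζ - 489 / 1000)]
    linarith
  have hζp : 0 < ζ + p := by positivity
  have h4 : 4 * ((q + q ^ 2) * (ζ + p) ^ 2) < (1 + p) * ζ * (3 * ζ + 2 * p + p * ζ) := by
    have e1 : 0 ≤ (ζ + p) * q := by positivity
    have e2 : (2 * ((ζ + p) * q)) ^ 2 < ((1 + p) * ζ) ^ 2 :=
      pow_lt_pow_left₀ h2 (by positivity) (by norm_num)
    have e3 : 2 * ((ζ + p) * q) * (2 * (ζ + p)) < (1 + p) * ζ * (2 * (ζ + p)) :=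
      mul_lt_mul_of_pos_right h2 (by positivity)
    nlinarith
  have h5 : 4 * (((1 + ζ) / 2) ^ 2 * (ζ + p) ^ 2) ≤ 4 * ((q + q ^ 2) * (ζ + p) ^ 2) := by
    have := h3.trans huv
    gcongr
  nlinarith

/-- Both non-exceptional, but the sum `u + v` is exceptional. -/
lemma nn_ineq {K L u v q : ℝ} (h : Par2 K L) (hq : 0 < q) (hqv : q ≤ v) (hvu : v ≤ u)
    (huv : u * v ≤ q + q ^ 2) (hun : u * (K - u) ≤ L) (hs1 : u + v < 1)
    (hs : L < (u + v) * (K - (u + v))) :
    (K - u) * (u - q) + (K - v) * (v - q) ≤ L := by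
  set σ := u + v with hσ
  have hdisc : 0 < K ^ 2 / 4 - L := by nlinarith [sq_nonneg (σ - K / 2)]
  set r := Real.sqrt (K ^ 2 / 4 - L) with hr
  have hr0 : 0 < r := Real.sqrt_pos.mpr hdisc
  have hr2 : r ^ 2 = K ^ 2 / 4 - L := Real.sq_sqrt hdisc.le
  obtain ⟨U, hU⟩ : ∃ U, U = K / 2 - r := ⟨_, rfl⟩
  have hUL : U * (K - U) = L := by
    rw [hU]
    nlinarith
  have hU1 : U ≤ 1 := by
    have := h.K2
    rw [hU]
    linarith
  have hσr : (σ - K / 2) ^ 2 < r ^ 2 := by
    rw [hr2]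
    nlinarith
  have hσ2 := abs_lt_of_sq_lt_sq hσr hr0.le
  rw [abs_lt] at hσ2
  have hv0 : 0 < v := lt_of_lt_of_le hq hqv
  have huU : u ≤ U := by
    by_contra hcon
    push Not at hcon
    have h1 : |u - K / 2| < r := by
      rw [abs_lt]
      constructor
      · rw [hU] at hcon
        linarith
      · linarith [hσ2.2]
    have h2 : (u - K / 2) ^ 2 < r ^ 2 := sq_lt_sq' (abs_lt.mp h1).1 (abs_lt.mp h1).2
    rw [hr2] at h2
    nlinarith
  have hUσ : U < σ := by
    rw [hU]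
    linarith [hσ2.1]
  obtain ⟨w, hw⟩ : ∃ w, w = σ - U := ⟨_, rfl⟩
  have hw0 : 0 < w := by rw [hw]; linarith
  have hU0 : 0 < U := by linarith
  have hP : 0 ≤ U * w := by positivity
  have hq1 := phi_sq hP
  have hq10 := phi_nonneg hP
  have hq1q : phi (U * w) ≤ q := by
    refine phi_le hq.le hP (le_trans ?_ huv)
    rw [hw]
    have h3 : 0 ≤ (U - u) * (U + u - σ) := by
      apply mul_nonneg
      · linarith
      · rw [hσ]
        linarith
    nlinarith
  have hq1w : phi (U * w) ≤ w := by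
    refine phi_le hw0.le hP ?_
    nlinarith
  set a := phi (U * w) with ha
  have hen := en_ineq h (le_of_eq hUL.symm) hU1 hq10 hq1w (by linarith)
  obtain ⟨hz, -, -⟩ := exc_bounds h (le_of_eq hUL.symm) hU1
  have hsl : slope K L U = K - U := by
    unfold slope
    rw [div_eq_iff hz.ne', ← hUL]
    ring
  rw [hsl] at hen
  refine lin_of_left h.L0.le h.tan hq.le (hqv.trans hvu) hqv huv hq1q ?_
  have hσe : u + v = U + w := by rw [hw, hσ]; ring
  rw [hσe]
  unfold Hf
  nlinarith [hen, hq1, hUL]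

/-- The parameter hypotheses. -/
structure Par (K L : ℝ) : Prop where
  L0 : 0 < L
  kap : K - L ≤ 1
  tan : ∀ y : ℝ, 2 < y → K - L / 2 * y ≤ (1 / y + 1 / (y - 2)) / 2
  K2 : K < 2
  K0 : 0 < K
  alt : K ^ 2 ≤ 4 * L ∨ Par2 K L

open Classical in
/-- The contribution of an edge to one of its end points. -/
noncomputable def wt (K L u q : ℝ) : ℝ :=
  if L < u * (K - u) then L - slope K L u * q else (K - u) * (u - q)

lemma exc_le_one {K L u : ℝ} (h : Par2 K L) (hu : L < u * (K - u)) : u ≤ 1 := by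
  by_contra hcon
  push Not at hcon
  have h1 := h.kap
  have h2 := h.L1
  nlinarith

/-- The edge inequality. -/
theorem edge_ineq {K L u v q : ℝ} (h : Par K L) (hq : 0 < q) (hqu : q ≤ u) (hqv : q ≤ v)
    (huv : u * v ≤ q + q ^ 2) : wt K L u q + wt K L v q ≤ L := by
  rcases h.alt with h1 | h2
  · have hu : ¬ L < u * (K - u) := by
      rw [not_lt]
      nlinarith [sq_nonneg (u - K / 2)]
    have hv : ¬ L < v * (K - v) := by
      rw [not_lt]
      nlinarith [sq_nonneg (v - K / 2)]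
    unfold wt
    rw [if_neg hu, if_neg hv]
    refine lin_of_sum h.L0.le h.kap h.tan hq hqu hqv huv (Or.inr ?_)
    nlinarith [sq_nonneg (u + v - K / 2)]
  · unfold wt
    by_cases hu : L < u * (K - u)
    · have hu1 := exc_le_one h2 hu
      by_cases hv : L < v * (K - v)
      · have hv1 := exc_le_one h2 hv
        rw [if_pos hu, if_pos hv]
        have := ee_ineq h2 hu.le hu1 hv.le hv1 hq.le huv
        linarith
      · rw [if_pos hu, if_neg hv]
        have := en_ineq h2 hu.le hu1 hq.le hqv huv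
        linarith
    · by_cases hv : L < v * (K - v)
      · have hv1 := exc_le_one h2 hv
        rw [if_neg hu, if_pos hv]
        have := en_ineq h2 hv.le hv1 hq.le hqu (by rw [mul_comm]; exact huv)
        linarith
      · rw [if_neg hu, if_neg hv]
        rw [not_lt] at hu hv
        by_cases hs : 1 ≤ u + v ∨ (u + v) * (K - (u + v)) ≤ L
        · exact lin_of_sum h.L0.le h.kap h.tan hq hqu hqv huv hs
        · push Not at hs
          rcases le_total v u with hvu | hvu
          · exact nn_ineq h2 hq hqv hvu huv hu hs.1 hs.2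
          · have := nn_ineq h2 hq hqu hvu (by rw [mul_comm]; exact huv) hv
              (by rw [add_comm]; exact hs.1) (by rw [add_comm v u]; exact hs.2)
            linarith

/-- The vertex inequality. -/
theorem vertex_ineq {K L : ℝ} (h : Par K L) {u ε : ℝ} (hu : 0 < u) (hε : 0 < ε)
    {ι : Type*} (s : Finset ι) (m : ι → ℕ) (q : ι → ℝ) (hq : ∀ i ∈ s, 0 ≤ q i)
    (hsum : ∑ i ∈ s, (m i : ℝ) * (u - q i) = 1 - ε * u) :
    K - 6 * ε ≤ u + ∑ i ∈ s, (m i : ℝ) * wt K L u (q i) := by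
  by_cases hex : L < u * (K - u)
  · have h2 : Par2 K L := by
      rcases h.alt with h1 | h2
      · exfalso
        nlinarith [sq_nonneg (u - K / 2)]
      · exact h2
    have hu1 := exc_le_one h2 hex
    obtain ⟨hz, hp1, -⟩ := exc_bounds h2 hex.le hu1
    have hp3 := h2.p1
    have hz42 : 42 / 100 ≤ 2 * u - 1 := by linarith
    obtain ⟨D, hD⟩ : ∃ D : ℕ, D = ∑ i ∈ s, m i := ⟨_, rfl⟩
    have hDr : (D : ℝ) = ∑ i ∈ s, (m i : ℝ) := by rw [hD]; push_cast; rfl
    have hmq : ∑ i ∈ s, (m i : ℝ) * q i = D * u - (1 - ε * u) := by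
      rw [← hsum, hDr, Finset.sum_mul, ← Finset.sum_sub_distrib]
      refine Finset.sum_congr rfl fun i _ => ?_
      ring
    have hw : ∑ i ∈ s, (m i : ℝ) * wt K L u (q i)
        = D * L - slope K L u * (D * u - (1 - ε * u)) := by
      rw [← hmq, hDr, Finset.sum_mul, Finset.mul_sum, ← Finset.sum_sub_distrib]
      refine Finset.sum_congr rfl fun i _ => ?_
      unfold wt
      rw [if_pos hex]
      ring
    rw [hw]
    have hsm := slope_pos h2 hz
    obtain ⟨η, hη⟩ : ∃ η, η = (u * (K - u) - L) / (2 * u - 1) := ⟨_, rfl⟩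
    have hη0 : 0 ≤ η := by
      rw [hη]
      apply div_nonneg _ hz.le
      linarith
    have hη1 : L - slope K L u * u = η := by
      rw [hη, slope, eq_div_iff hz.ne']
      field_simp
      ring
    have hη2 : u + slope K L u + 2 * η = K := by
      have e : slope K L u + 2 * η = K - u := by
        rw [hη, slope, ← mul_div_assoc, ← add_div, div_eq_iff hz.ne']
        ring
      linarith
    have htot : u + (D * L - slope K L u * (D * u - (1 - ε * u)))
        = K + (D - 2) * η - ε * (L - η) := by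
      have e1 : slope K L u * u = L - η := by linarith
      have e2 : slope K L u = K - u - 2 * η := by linarith
      calc u + (D * L - slope K L u * (D * u - (1 - ε * u)))
          = u + D * (L - slope K L u * u) + slope K L u - ε * (slope K L u * u) := by ring
        _ = _ := by
          rw [e1, e2]
          ring
    rw [htot]
    have hL1 := h2.L1
    have hεL : ε * (L - η) ≤ ε := by
      have : L - η ≤ 1 := by linarith
      nlinarith
    rcases le_or_gt 2 D with hD2 | hD2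
    · have : (2 : ℝ) ≤ D := by exact_mod_cast hD2
      nlinarith
    · have hD1 : (D : ℝ) ≤ 1 := by
        have : D ≤ 1 := by omega
        exact_mod_cast this
      have hD0 : (0 : ℝ) ≤ D := Nat.cast_nonneg D
      have hmq0 : 0 ≤ ∑ i ∈ s, (m i : ℝ) * q i :=
        Finset.sum_nonneg fun i hi => mul_nonneg (Nat.cast_nonneg _) (hq i hi)
      rw [hmq] at hmq0
      have h3 : 1 - u ≤ ε * u := by nlinarith
      have h4 : u * (K - u) - L ≤ ε := by
        have := h.kap
        have h5 := h.L0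
        have h6 : u * (K - u) - L ≤ (u - L) * (1 - u) := by nlinarith
        have h7 : (u - L) * (1 - u) ≤ 1 - u := by nlinarith
        nlinarith
      have h5 : η ≤ 5 / 2 * ε := by
        rw [hη, div_le_iff₀ hz]
        nlinarith
      nlinarith
  · have hw : ∑ i ∈ s, (m i : ℝ) * wt K L u (q i) = (K - u) * (1 - ε * u) := by
      rw [← hsum, Finset.mul_sum]
      refine Finset.sum_congr rfl fun i _ => ?_
      unfold wt
      rw [if_neg hex]
      ring
    rw [hw]
    have h1 : u * (K - u) ≤ 1 := by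
      have := h.K2
      have := h.K0
      nlinarith [sq_nonneg (u - K / 2)]
    nlinarith

end Pool.Agent.Lib.MP_cf7718_co
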