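import Mathlib

open scoped ENNReal

namespace Pool.Agent.Lib.MP_cf7718_co

/-- A finite multigraph without loops on the vertex set `Fin n`; `mult x y` is the number of
edges joining `x` and `y`. -/
structure MGraph (n : ℕ) where
  mult : Fin n → Fin n → ℕ
  symm : ∀ x y, mult x y = mult y x
  loopless : ∀ x, mult x x = 0

/-- The number of edges, counted with multiplicity. -/
def MGraph.numEdges {n : ℕ} (G : MGraph n) : ℕ := ∑ x, ∑ y, if x < y then G.mult x y else 0

/-- `v` is a potential for a unit current from `x` to `y` when every edge is a unit resistor: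
at every vertex `z` the net current leaving `z` is `1` at `x`, `-1` at `y`, and `0` elsewhere
(Kirchhoff's law; for `x = y` there is no external current). -/
def MGraph.IsPotential {n : ℕ} (G : MGraph n) (x y : Fin n) (v : Fin n → ℝ) : Prop :=
  ∀ z, ∑ w, (G.mult z w : ℝ) * (v z - v w) = (if z = x then 1 else 0) - (if z = y then 1 else 0)

/-- The effective resistance between `x` and `y`: the potential difference `v x - v y` for a unit
current from `x` to `y`; it is `∞` if there is no such potential. -/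
noncomputable def MGraph.effRes {n : ℕ} (G : MGraph n) (x y : Fin n) : ℝ≥0∞ :=
  ⨅ v : {v : Fin n → ℝ // G.IsPotential x y v}, ENNReal.ofReal (v.1 x - v.1 y)

/-- `A'(G) = n^{-2} ∑_{x,y} R_{xy}`. -/
noncomputable def MGraph.avgRes {n : ℕ} (G : MGraph n) : ℝ≥0∞ :=
  (∑ x, ∑ y, G.effRes x y) / (n : ℝ≥0∞) ^ 2

/-- `a_n(α) = min {A'(G) : |V(G)| = n, e(G) ≤ α n / 2}`. -/
noncomputable def aMin (n : ℕ) (α : ℝ) : ℝ≥0∞ :=
  ⨅ G : {G : MGraph n // (G.numEdges : ℝ) ≤ α * n / 2}, G.1.avgRes

/-- `a(α) = lim_n a_n(α)`, written as a lower limit. -/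
noncomputable def aLim (α : ℝ) : ℝ≥0∞ := Filter.liminf (fun n : ℕ => aMin n α) Filter.atTop

/-- The comparison function `f`: the pointwise supremum of all convex functions `h` on `[2, ∞)`
with `h 2 ≤ 1` and `h y ≤ (y-1)/(y(y-2))` for all `y > 2`. -/
noncomputable def cmpFun (x : ℝ) : ℝ :=
  sSup {t : ℝ | ∃ h : ℝ → ℝ, ConvexOn ℝ (Set.Ici 2) h ∧ h 2 ≤ 1 ∧
    (∀ y, 2 < y → h y ≤ (y - 1) / (y * (y - 2))) ∧ t = h x}

end Pool.Agent.Lib.MP_cf7718_co
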