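import Mathlib
import Pool.Agent.Lib.MP_cf7718_co.Cert3

namespace Pool.Agent.Lib.MP_cf7718_co

/-- The parameters of the tangent line at `x` satisfy the hypotheses. -/
theorem par_of {x : ℝ} (hx3 : 3 ≤ x) (hx : 0 ≤ x ^ 3 - 4 * x ^ 2 + 3 * x - 2) :
    Par (Kc x) (Lc x) := by
  have hx2 : 2 < x := by linarith
  have hx0 : 0 < x := by linarith
  have hxm : 0 < x - 2 := by linarith
  have hx326 : 3269 / 1000 < x := by
    by_contra hcon
    push Not at hcon
    nlinarith [mul_nonneg (sub_nonneg.mpr hx3) (sub_nonneg.mpr hcon),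
      mul_nonneg (mul_nonneg (sub_nonneg.mpr hx3) (sub_nonneg.mpr hcon)) hx0.le]
  obtain ⟨s, hs⟩ : ∃ s, s = 1 / x := ⟨_, rfl⟩
  obtain ⟨r, hr⟩ : ∃ r, r = 1 / (x - 2) := ⟨_, rfl⟩
  have hK : Kc x = s + r + r ^ 2 := by
    rw [hs, hr, Kc, one_div_pow]
  have hL : Lc x = s ^ 2 + r ^ 2 := by
    rw [hs, hr, Lc, one_div_pow, one_div_pow]
  have hs0 : 0 < s := by rw [hs]; positivity
  have hr0 : 0 < r := by rw [hr]; positivity
  have hs1 : s ≤ 1000 / 3269 := by
    rw [hs, div_le_div_iff₀ hx0 (by norm_num)]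
    linarith
  have hr1 : r ≤ 1000 / 1269 := by
    rw [hr, div_le_div_iff₀ hxm (by norm_num)]
    linarith
  have hkap : s - s ^ 2 + r ≤ 1 := by
    rw [hs, hr]
    have e : 1 / x - (1 / x) ^ 2 + 1 / (x - 2)
        = ((x - 1) * (x - 2) + x ^ 2) / (x ^ 2 * (x - 2)) := by
      field_simp
    rw [e, div_le_one (by positivity)]
    nlinarith
  refine ⟨Lc_pos hx2, ?_, fun y hy => tangent_le hx2 hy, ?_, ?_, ?_⟩
  · rw [hK, hL]
    linarith
  · rw [hK]
    nlinarith
  · rw [hK]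
    positivity
  · rcases le_or_gt (10 / 3) x with h | h
    · left
      unfold Kc Lc
      have e1 : 1 / x + 1 / (x - 2) + 1 / (x - 2) ^ 2
          = (2 * x ^ 2 - 5 * x + 4) / (x * (x - 2) ^ 2) := by
        field_simp
        ring
      have e2 : 4 * (1 / x ^ 2 + 1 / (x - 2) ^ 2)
          = 8 * (x ^ 2 - 2 * x + 2) / (x ^ 2 * (x - 2) ^ 2) := by
        field_simp
        ring
      rw [e1, e2, div_pow, div_le_div_iff₀ (by positivity) (by positivity)]
      have h4 : (2 * x ^ 2 - 5 * x + 4) ^ 2 ≤ 8 * (x ^ 2 - 2 * x + 2) * (x - 2) ^ 2 := by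
        nlinarith [mul_nonneg (sub_nonneg.mpr h) (sub_nonneg.mpr h),
          mul_nonneg (mul_nonneg (sub_nonneg.mpr h) (sub_nonneg.mpr h)) (sub_nonneg.mpr h),
          mul_nonneg (mul_nonneg (sub_nonneg.mpr h) (sub_nonneg.mpr h))
            (mul_nonneg (sub_nonneg.mpr h) (sub_nonneg.mpr h))]
      have h5 : 0 ≤ x ^ 2 * (x - 2) ^ 2 := by positivity
      nlinarith [mul_le_mul_of_nonneg_right h4 h5]
    · right
      have hs2 : 3 / 10 ≤ s := by
        rw [hs, div_le_div_iff₀ (by norm_num) hx0]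
        linarith
      have hr2 : 3 / 4 ≤ r := by
        rw [hr, div_le_div_iff₀ (by norm_num) hxm]
        linarith
      refine ⟨?_, fun y hy => tangent_le hx2 hy, ?_, ?_, Lc_pos hx2, ?_, ?_, ?_⟩
      · rw [hK, hL]
        linarith
      · rw [hK, hL]
        nlinarith
      · rw [hL]
        nlinarith
      · rw [hK]
        nlinarith
      · rw [hK, hL]
        nlinarith [sq_nonneg (s - 1 / 4), sq_nonneg (r - 1 / 2)]
      · rw [hK, hL]
        nlinarith [mul_nonneg (sub_nonneg.mpr hs2) (sub_nonneg.mpr hs1),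
          mul_nonneg (sub_nonneg.mpr hr2) (sub_nonneg.mpr hr1)]

end Pool.Agent.Lib.MP_cf7718_co
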