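import Mathlib
import Pool.Agent.Lib.MP_cf7718_co.Par

namespace Pool.Agent.Lib.MP_cf7718_co

open Finset

section Laplacian

set_option linter.unusedSectionVars false

variable {V : Type} [Fintype V] [DecidableEq V] (m : V → V → ℕ)

/-- The graph Laplacian of the multigraph with multiplicities `m`. -/
def lap (v : V → ℝ) (z : V) : ℝ := ∑ w, (m z w : ℝ) * (v z - v w)

lemma lap_add (u v : V → ℝ) : lap m (u + v) = lap m u + lap m v := by
  funext z
  simp only [lap, Pi.add_apply, ← sum_add_distrib]
  refine sum_congr rfl fun w _ => ?_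
  ring

lemma lap_smul (c : ℝ) (v : V → ℝ) : lap m (c • v) = c • lap m v := by
  funext z
  simp only [lap, Pi.smul_apply, smul_eq_mul, mul_sum]
  refine sum_congr rfl fun w _ => ?_
  ring

variable {m} (hs : ∀ x y, m x y = m y x)

include hs in
lemma lap_bilin (u v : V → ℝ) :
    ∑ z, u z * lap m v z = 1 / 2 * ∑ z, ∑ w, (m z w : ℝ) * ((u z - u w) * (v z - v w)) := by
  have h1 : ∑ z, u z * lap m v z = ∑ z, ∑ w, (m z w : ℝ) * (u z * (v z - v w)) := by
    refine sum_congr rfl fun z _ => ?_
    rw [lap, mul_sum]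
    refine sum_congr rfl fun w _ => ?_
    ring
  have h2 : ∑ z, ∑ w, (m z w : ℝ) * (u z * (v z - v w))
      = ∑ z, ∑ w, (m z w : ℝ) * (u w * (v w - v z)) := by
    rw [sum_comm]
    refine sum_congr rfl fun z _ => sum_congr rfl fun w _ => ?_
    rw [hs w z]
  have h3 : ∑ z, ∑ w, (m z w : ℝ) * ((u z - u w) * (v z - v w))
      = ∑ z, ∑ w, (m z w : ℝ) * (u z * (v z - v w))
        + ∑ z, ∑ w, (m z w : ℝ) * (u w * (v w - v z)) := by
    rw [← sum_add_distrib]
    refine sum_congr rfl fun z _ => ?_
    rw [← sum_add_distrib]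
    refine sum_congr rfl fun w _ => ?_
    ring
  rw [h3, ← h2, h1]
  ring

include hs in
lemma lap_symm (u v : V → ℝ) : ∑ z, u z * lap m v z = ∑ z, v z * lap m u z := by
  rw [lap_bilin hs, lap_bilin hs]
  congr 1
  refine sum_congr rfl fun z _ => sum_congr rfl fun w _ => ?_
  ring

include hs in
lemma lap_nonneg (v : V → ℝ) : 0 ≤ ∑ z, v z * lap m v z := by
  rw [lap_bilin hs]
  refine mul_nonneg (by norm_num) (sum_nonneg fun z _ => sum_nonneg fun w _ => ?_)
  exact mul_nonneg (Nat.cast_nonneg _) (mul_self_nonneg _)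

/-- The operator `L + ε`. -/
def lapE (m : V → V → ℕ) (ε : ℝ) : (V → ℝ) →ₗ[ℝ] (V → ℝ) where
  toFun v := fun z => ε * v z + lap m v z
  map_add' u v := by
    funext z
    have := congrFun (lap_add m u v) z
    simp only [Pi.add_apply] at this ⊢
    rw [this]
    ring
  map_smul' c v := by
    funext z
    have := congrFun (lap_smul m c v) z
    simp only [Pi.smul_apply, smul_eq_mul, RingHom.id_apply] at this ⊢
    rw [this]
    ring

lemma lapE_apply (ε : ℝ) (v : V → ℝ) (z : V) : lapE m ε v z = ε * v z + lap m v z := rfl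

include hs in
lemma lapE_injective {ε : ℝ} (hε : 0 < ε) : Function.Injective (lapE m ε) := by
  rw [injective_iff_map_eq_zero]
  intro v hv
  have h1 : ∑ z, v z * lapE m ε v z = 0 := by
    rw [hv]
    simp
  have h2 : ∑ z, v z * lapE m ε v z = ε * ∑ z, v z ^ 2 + ∑ z, v z * lap m v z := by
    rw [mul_sum, ← sum_add_distrib]
    refine sum_congr rfl fun z _ => ?_
    rw [lapE_apply]
    ring
  have h3 := lap_nonneg hs v
  have h4 : 0 ≤ ∑ z, v z ^ 2 := sum_nonneg fun z _ => sq_nonneg _
  have h5 : ∑ z, v z ^ 2 = 0 := by nlinarith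
  rw [sum_eq_zero_iff_of_nonneg fun z _ => sq_nonneg _] at h5
  funext z
  exact pow_eq_zero_iff (by norm_num) |>.mp (h5 z (mem_univ z))

include hs in
lemma lapE_surjective {ε : ℝ} (hε : 0 < ε) : Function.Surjective (lapE m ε) :=
  LinearMap.injective_iff_surjective.mp (lapE_injective hs hε)

include hs in
lemma lapE_symm (ε : ℝ) (u v : V → ℝ) :
    ∑ z, u z * lapE m ε v z = ∑ z, v z * lapE m ε u z := by
  have h1 : ∀ a b : V → ℝ, ∑ z, a z * lapE m ε b z
      = ε * ∑ z, a z * b z + ∑ z, a z * lap m b z := by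
    intro a b
    rw [mul_sum, ← sum_add_distrib]
    refine sum_congr rfl fun z _ => ?_
    rw [lapE_apply]
    ring
  rw [h1, h1, lap_symm hs u v]
  congr 2
  refine sum_congr rfl fun z _ => ?_
  ring

/-- Minimum principle. -/
lemma min_principle {ε : ℝ} (hε : 0 < ε) (h : V → ℝ) (A : Set V)
    (hA : ∀ z ∈ A, 0 ≤ h z) (hf : ∀ z, z ∉ A → 0 ≤ lapE m ε h z) (z : V) : 0 ≤ h z := by
  obtain ⟨w, -, hw⟩ := exists_min_image (univ : Finset V) h ⟨z, mem_univ z⟩
  refine le_trans ?_ (hw z (mem_univ z))
  by_contra hcon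
  push Not at hcon
  have hwA : w ∉ A := fun hmem => absurd (hA w hmem) (not_le.mpr hcon)
  have h1 := hf w hwA
  rw [lapE_apply] at h1
  have h2 : lap m h w ≤ 0 := by
    refine sum_nonpos fun y _ => ?_
    exact mul_nonpos_of_nonneg_of_nonpos (Nat.cast_nonneg _)
      (by linarith [hw y (mem_univ y)])
  nlinarith

/-- Existence of the Green function of `L + ε` with its basic properties. -/
theorem exists_green (hs : ∀ x y, m x y = m y x) (hl : ∀ x, m x x = 0) {ε : ℝ} (hε : 0 < ε) :
    ∃ G : V → V → ℝ,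
      (∀ y z, lapE m ε (fun x => G x y) z = if z = y then 1 else 0) ∧
      (∀ x y, G x y = G y x) ∧
      (∀ x y, 0 ≤ G x y) ∧
      (∀ x, 0 < G x x) ∧
      (∀ x y, G x y ≤ G y y) ∧
      (∀ x y, m x y ≠ 0 → G x x * G y y ≤ G x y + G x y ^ 2) ∧
      (∀ y, ∑ x, G x y = 1 / ε) := by
  have hex : ∀ y : V, ∃ g : V → ℝ, lapE m ε g = fun z => if z = y then 1 else 0 :=
    fun y => lapE_surjective hs hε _
  choose g hg using hex
  have hgz : ∀ y z, lapE m ε (g y) z = if z = y then 1 else 0 := fun y z => by rw [hg y]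
  have hsym : ∀ x y, g y x = g x y := by
    intro x y
    have h1 := lapE_symm hs ε (g y) (g x)
    simp only [hgz] at h1
    simpa using h1
  have hnn : ∀ x y, 0 ≤ g y x := by
    intro x y
    refine min_principle (m := m) hε (g y) ∅ (by simp) (fun z _ => ?_) x
    rw [hgz]
    split <;> norm_num
  have hpos : ∀ x, 0 < g x x := by
    intro x
    rcases eq_or_lt_of_le (hnn x x) with h0 | h0
    · exfalso
      have h1 := hgz x x
      rw [if_pos rfl, lapE_apply, ← h0, mul_zero, zero_add] at h1
      have h2 : lap m (g x) x ≤ 0 := by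
        refine sum_nonpos fun y _ => ?_
        refine mul_nonpos_of_nonneg_of_nonpos (Nat.cast_nonneg _) ?_
        rw [← h0]
        linarith [hnn y x]
      linarith
    · exact h0
  have hle : ∀ x y, g y x ≤ g y y := by
    intro x y
    have h1 := min_principle (m := m) hε (fun z => g y y - g y z) {y} (by simp) (fun z hz => by
      have hzy : z ≠ y := hz
      have h2 : lapE m ε (fun z => g y y - g y z) z = ε * g y y - lapE m ε (g y) z := by
        rw [lapE_apply, lapE_apply]
        have h3 : lap m (fun z => g y y - g y z) z = - lap m (g y) z := by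
          simp only [lap, ← sum_neg_distrib]
          refine sum_congr rfl fun w _ => ?_
          ring
        rw [h3]
        ring
      rw [h2, hgz, if_neg hzy, sub_zero]
      exact mul_nonneg hε.le (hnn y y)) x
    linarith
  refine ⟨fun x y => g y x, hgz, hsym, hnn, hpos, hle, ?_, ?_⟩
  · intro x y hxy
    have hne : x ≠ y := by
      rintro rfl
      exact hxy (hl x)
    -- the auxiliary function
    set h : V → ℝ := fun z => g y y * g x z - g x y * g y z with hh
    have hlin : ∀ z, lapE m ε h z = g y y * (if z = x then 1 else 0)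
        - g x y * (if z = y then 1 else 0) := by
      intro z
      rw [← hgz x z, ← hgz y z]
      simp only [lapE_apply, lap, hh]
      rw [mul_add, mul_add, mul_sum, mul_sum, add_sub_add_comm, ← sum_sub_distrib]
      congr 1
      · ring
      · refine sum_congr rfl fun w _ => ?_
        ring
    have hhy : h y = 0 := by
      simp only [hh]
      ring
    have hh0 : ∀ z, 0 ≤ h z := by
      refine min_principle (m := m) hε h {y} (by simp [hhy]) fun z hz => ?_
      have hzy : z ≠ y := hz
      rw [hlin, if_neg hzy, mul_zero, sub_zero]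
      split
      · rw [mul_one]
        exact hnn y y
      · rw [mul_zero]
    have h1 := hlin y
    rw [if_neg hne.symm, if_pos rfl, mul_zero, zero_sub, mul_one, lapE_apply, hhy, mul_zero,
      zero_add] at h1
    have h2 : lap m h y = - ∑ w, (m y w : ℝ) * h w := by
      rw [lap, ← sum_neg_distrib]
      refine sum_congr rfl fun w _ => ?_
      rw [hhy]
      ring
    rw [h2] at h1
    have h3 : (m y x : ℝ) * h x ≤ ∑ w, (m y w : ℝ) * h w :=
      single_le_sum (f := fun w => (m y w : ℝ) * h w)
        (fun w _ => mul_nonneg (Nat.cast_nonneg _) (hh0 w)) (mem_univ x)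
    have h4 : (1 : ℝ) ≤ m y x := by
      rw [← hs x y]
      exact_mod_cast Nat.one_le_iff_ne_zero.mpr hxy
    have h5 : h x ≤ (m y x : ℝ) * h x := le_mul_of_one_le_left (hh0 x) h4
    have h6 : h x = g y y * g x x - g x y * g y x := rfl
    have h7 := hsym x y
    simp only
    rw [h7] at h6 ⊢
    nlinarith
  · intro y
    have h1 : ∑ z, (1 : ℝ) * lapE m ε (g y) z = ∑ z, g y z * lapE m ε (fun _ => 1) z :=
      lapE_symm hs ε (fun _ => 1) (g y)
    have h2 : ∀ z, lapE m ε (fun _ => (1 : ℝ)) z = ε := by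
      intro z
      rw [lapE_apply, lap]
      simp
    simp only [hgz, h2, one_mul, sum_ite_eq', mem_univ, if_true] at h1
    rw [← sum_mul] at h1
    rw [eq_div_iff hε.ne']
    exact h1.symm

/-- Rayleigh monotonicity: the potential difference dominates the grounded one. -/
theorem rayleigh (hs : ∀ x y, m x y = m y x) {ε : ℝ} (hε : 0 < ε) {G : V → V → ℝ}
    (hG : ∀ y z, lapE m ε (fun x => G x y) z = if z = y then 1 else 0)
    (hsym : ∀ x y, G x y = G y x) (x y : V) (v : V → ℝ)
    (hv : ∀ z, lap m v z = (if z = x then 1 else 0) - (if z = y then 1 else 0)) :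
    G x x + G y y - 2 * G x y ≤ v x - v y := by
  obtain ⟨w, hw⟩ := lapE_surjective hs hε v
  have hw' : ∀ z, v z = ε * w z + lap m w z := fun z => by rw [← hw, lapE_apply]
  -- φ = lap w
  have hφ : (fun z => G z x - G z y) = lap m w := by
    apply lapE_injective hs hε
    funext z
    have h1 : lapE m ε (fun z => G z x - G z y) z
        = (if z = x then 1 else 0) - (if z = y then 1 else 0) := by
      have h2 : (fun z => G z x - G z y) = (fun z => G z x) - (fun z => G z y) := rfl
      rw [h2, map_sub, Pi.sub_apply, hG, hG]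
    rw [h1, ← hv z, lapE_apply]
    have h3 : v = ε • w + lap m w := by
      funext z
      rw [hw' z]
      rfl
    rw [h3, lap_add, lap_smul]
    rfl
  have h1 : ∑ z, lap m v z * v z = v x - v y := by
    simp only [hv, sub_mul, ite_mul, one_mul, zero_mul, sum_sub_distrib, sum_ite_eq', mem_univ,
      if_true]
  have h2 : ∑ z, lap m v z * lap m w z = G x x + G y y - 2 * G x y := by
    rw [← hφ]
    simp only [hv, sub_mul, ite_mul, one_mul, zero_mul, sum_sub_distrib, sum_ite_eq', mem_univ,
      if_true]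
    rw [hsym y x]
    ring
  have h3 : ∑ z, lap m v z * v z - ∑ z, lap m v z * lap m w z
      = ε * ∑ z, w z * lap m v z := by
    rw [← sum_sub_distrib, mul_sum]
    refine sum_congr rfl fun z _ => ?_
    rw [hw' z]
    ring
  have h4 : ∑ z, w z * lap m v z = ε * ∑ z, w z * lap m w z + ∑ z, lap m w z ^ 2 := by
    rw [lap_symm hs, mul_sum, ← sum_add_distrib]
    refine sum_congr rfl fun z _ => ?_
    rw [hw' z]
    ring
  have h5 := lap_nonneg hs w
  have h6 : 0 ≤ ∑ z, lap m w z ^ 2 := sum_nonneg fun z _ => sq_nonneg _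
  have h7 : 0 ≤ ε * ∑ z, w z * lap m v z := by
    rw [h4]
    positivity
  linarith

/-- The main lower bound for the trace of the Green function. -/
theorem trace_bound (hs : ∀ x y, m x y = m y x) (hl : ∀ x, m x x = 0) {K L : ℝ}
    (hP : Par K L) {ε : ℝ} (hε : 0 < ε) {G : V → V → ℝ}
    (hG : ∀ y z, lapE m ε (fun x => G x y) z = if z = y then 1 else 0)
    (hsym : ∀ x y, G x y = G y x) (hnn : ∀ x y, 0 ≤ G x y) (hpos : ∀ x, 0 < G x x)
    (hle : ∀ x y, G x y ≤ G y y)
    (hedge : ∀ x y, m x y ≠ 0 → G x x * G y y ≤ G x y + G x y ^ 2) :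
    (Fintype.card V : ℝ) * (K - 6 * ε) - L / 2 * ∑ x, ∑ y, (m x y : ℝ) ≤ ∑ x, G x x := by
  have hvert : ∀ x : V, K - 6 * ε ≤ G x x + ∑ y, (m x y : ℝ) * wt K L (G x x) (G x y) := by
    intro x
    refine vertex_ineq hP (hpos x) hε univ (m x) (G x) (fun y _ => hnn x y) ?_
    have h1 := hG x x
    rw [if_pos rfl, lapE_apply, lap] at h1
    have h2 : ∑ y, (m x y : ℝ) * (G x x - G x y) = ∑ y, (m x y : ℝ) * (G x x - G y x) := by
      refine sum_congr rfl fun y _ => ?_
      rw [hsym x y]
    rw [h2]
    linarith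
  have hsum : ∑ x, ∑ y, (m x y : ℝ) * wt K L (G x x) (G x y)
      ≤ L / 2 * ∑ x, ∑ y, (m x y : ℝ) := by
    have h1 : ∑ x, ∑ y, (m x y : ℝ) * wt K L (G x x) (G x y)
        = ∑ x, ∑ y, (m x y : ℝ) * wt K L (G y y) (G x y) := by
      rw [sum_comm]
      refine sum_congr rfl fun x _ => sum_congr rfl fun y _ => ?_
      rw [hs y x, hsym y x]
    have h2 : ∑ x, ∑ y, (m x y : ℝ) * wt K L (G x x) (G x y)
        + ∑ x, ∑ y, (m x y : ℝ) * wt K L (G y y) (G x y)
        ≤ L * ∑ x, ∑ y, (m x y : ℝ) := by
      rw [← sum_add_distrib, mul_sum]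
      refine sum_le_sum fun x _ => ?_
      rw [← sum_add_distrib, mul_sum]
      refine sum_le_sum fun y _ => ?_
      rcases eq_or_ne (m x y) 0 with h0 | h0
      · rw [h0]
        simp
      · have h3 := hedge x y h0
        have hq : 0 < G x y := by
          rcases eq_or_lt_of_le (hnn x y) with h4 | h4
          · exfalso
            rw [← h4] at h3
            have := mul_pos (hpos x) (hpos y)
            norm_num at h3
            linarith
          · exact h4
        have h5 := edge_ineq hP hq (by rw [hsym x y]; exact hle y x) (hle x y) h3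
        have h6 : (0 : ℝ) ≤ m x y := Nat.cast_nonneg _
        calc (m x y : ℝ) * wt K L (G x x) (G x y) + (m x y : ℝ) * wt K L (G y y) (G x y)
            = (m x y : ℝ) * (wt K L (G x x) (G x y) + wt K L (G y y) (G x y)) := by ring
          _ ≤ (m x y : ℝ) * L := mul_le_mul_of_nonneg_left h5 h6
          _ = _ := mul_comm _ _
    rw [← h1] at h2
    linarith
  have h7 : (Fintype.card V : ℝ) * (K - 6 * ε)
      ≤ ∑ x, (G x x + ∑ y, (m x y : ℝ) * wt K L (G x x) (G x y)) := by
    have h8 := sum_le_sum (s := (univ : Finset V)) fun x _ => hvert x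
    rw [sum_const, card_univ, nsmul_eq_mul] at h8
    exact h8
  rw [sum_add_distrib] at h7
  linarith

end Laplacian

end Pool.Agent.Lib.MP_cf7718_co
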