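import Mathlib
import Pool.Agent.Lib.MP_cf7718_co.Defs
import Pool.Agent.Lib.MP_cf7718_co.Green

open scoped ENNReal
open Finset Filter Topology

namespace Pool.Agent.Lib.MP_cf7718_co

lemma two_mul_numEdges {n : ℕ} (G : MGraph n) :
    ∑ x, ∑ y, (G.mult x y : ℝ) = 2 * (G.numEdges : ℝ) := by
  have h1 : ∀ x y : Fin n, (G.mult x y : ℝ)
      = ((if x < y then G.mult x y else 0 : ℕ) : ℝ)
        + ((if y < x then G.mult y x else 0 : ℕ) : ℝ) := by
    intro x y
    rcases lt_trichotomy x y with h | h | h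
    · rw [if_pos h, if_neg (not_lt.mpr h.le)]
      simp
    · subst h
      rw [if_neg (lt_irrefl _), G.loopless]
      simp
    · rw [if_neg (not_lt.mpr h.le), if_pos h, G.symm x y]
      simp
  have h2 : ∑ x, ∑ y, (G.mult x y : ℝ)
      = ∑ x, ∑ y, ((if x < y then G.mult x y else 0 : ℕ) : ℝ)
        + ∑ x : Fin n, ∑ y : Fin n, ((if y < x then G.mult y x else 0 : ℕ) : ℝ) := by
    rw [← sum_add_distrib]
    refine sum_congr rfl fun x _ => ?_
    rw [← sum_add_distrib]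
    exact sum_congr rfl fun y _ => h1 x y
  rw [h2, sum_comm (γ := Fin n) (f := fun x y : Fin n => ((if y < x then G.mult y x else 0 : ℕ)
    : ℝ))]
  rw [MGraph.numEdges]
  push_cast
  ring

lemma ofReal_sum_le' {ι : Type} (s : Finset ι) (f : ι → ℝ) :
    ENNReal.ofReal (∑ i ∈ s, f i) ≤ ∑ i ∈ s, ENNReal.ofReal (f i) :=
  Finset.le_sum_of_subadditive ENNReal.ofReal ENNReal.ofReal_zero.le
    (fun _ _ => ENNReal.ofReal_add_le) s f

/-- The lower bound for one graph. -/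
theorem graph_bound {n : ℕ} (hn : 0 < n) (G : MGraph n) {α : ℝ}
    (he : (G.numEdges : ℝ) ≤ α * n / 2) {K L : ℝ} (hP : Par K L) {ε : ℝ} (hε : 0 < ε) :
    ENNReal.ofReal (2 * (K - L / 2 * α) - 12 * ε - 2 / (n * ε)) ≤ G.avgRes := by
  obtain ⟨g, hg, hsym, hnn, hpos, hle, hedge, hsum⟩ := exists_green G.symm G.loopless hε
  have htr := trace_bound G.symm G.loopless hP hε hg hsym hnn hpos hle hedge
  rw [two_mul_numEdges, Fintype.card_fin] at htr
  have hn' : (0 : ℝ) < n := by exact_mod_cast hn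
  have hR : ∀ x y, ENNReal.ofReal (g x x + g y y - 2 * g x y) ≤ G.effRes x y := by
    intro x y
    refine le_iInf fun v => ENNReal.ofReal_le_ofReal ?_
    exact rayleigh G.symm hε hg hsym x y v.1 v.2
  have hsumR : ENNReal.ofReal (∑ x, ∑ y, (g x x + g y y - 2 * g x y))
      ≤ ∑ x, ∑ y, G.effRes x y := by
    refine le_trans ?_ (sum_le_sum fun x _ => sum_le_sum fun y _ => hR x y)
    refine (ofReal_sum_le' _ _).trans ?_
    refine sum_le_sum fun x _ => ?_
    exact ofReal_sum_le' _ _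
  have hval : ∑ x, ∑ y, (g x x + g y y - 2 * g x y) = 2 * n * ∑ x, g x x - 2 * (n / ε) := by
    have e1 : ∀ x, ∑ y, (g x x + g y y - 2 * g x y)
        = n * g x x + ∑ y, g y y - 2 * ∑ y, g x y := by
      intro x
      rw [sum_sub_distrib, sum_add_distrib, sum_const, card_univ, Fintype.card_fin, nsmul_eq_mul,
        ← mul_sum]
    simp only [e1]
    rw [sum_sub_distrib, sum_add_distrib, sum_const, card_univ, Fintype.card_fin, nsmul_eq_mul,
      ← mul_sum, ← mul_sum, sum_comm]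
    simp only [hsum, sum_const, card_univ, Fintype.card_fin, nsmul_eq_mul]
    ring
  rw [MGraph.avgRes, ENNReal.le_div_iff_mul_le (Or.inl (by positivity)) (Or.inl (by simp))]
  refine le_trans ?_ hsumR
  have e2 : ((n : ℝ≥0∞)) ^ 2 = ENNReal.ofReal ((n : ℝ) ^ 2) := by
    rw [ENNReal.ofReal_pow hn'.le, ENNReal.ofReal_natCast]
  rw [e2, ← ENNReal.ofReal_mul' (by positivity)]
  refine ENNReal.ofReal_le_ofReal ?_
  rw [hval]
  have h1 : (n : ℝ) * (K - 6 * ε) - L / 2 * (α * n) ≤ ∑ x, g x x := by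
    refine le_trans ?_ htr
    have := hP.L0
    nlinarith
  have h2 : (2 * (K - L / 2 * α) - 12 * ε - 2 / (n * ε)) * (n : ℝ) ^ 2
      = 2 * n * ((n : ℝ) * (K - 6 * ε) - L / 2 * (α * n)) - 2 * (n / ε) := by
    field_simp
    ring
  rw [h2]
  nlinarith

/-- The lower bound of `a(α)` by a tangent line. -/
theorem aLim_ge {K L : ℝ} (hP : Par K L) (α : ℝ) :
    ENNReal.ofReal (2 * (K - L / 2 * α)) ≤ aLim α := by
  -- fixed ε
  have h1 : ∀ ε : ℝ, 0 < ε → ENNReal.ofReal (2 * (K - L / 2 * α) - 12 * ε) ≤ aLim α := by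
    intro ε hε
    have h2 : ∀ᶠ n : ℕ in atTop,
        ENNReal.ofReal (2 * (K - L / 2 * α) - 12 * ε - 2 / (n * ε)) ≤ aMin n α := by
      filter_upwards [eventually_gt_atTop 0] with n hn
      exact le_iInf fun G => graph_bound hn G.1 G.2 hP hε
    have h3 : Tendsto (fun n : ℕ => ENNReal.ofReal
        (2 * (K - L / 2 * α) - 12 * ε - 2 / (n * ε))) atTop
        (𝓝 (ENNReal.ofReal (2 * (K - L / 2 * α) - 12 * ε - 0))) := by
      refine ENNReal.tendsto_ofReal (tendsto_const_nhds.sub ?_)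
      have h4 : Tendsto (fun n : ℕ => (n : ℝ) * ε) atTop atTop :=
        tendsto_natCast_atTop_atTop.atTop_mul_const hε
      exact h4.const_div_atTop 2
    rw [sub_zero] at h3
    rw [← h3.liminf_eq]
    exact liminf_le_liminf h2
  have h5 : Tendsto (fun ε : ℝ => ENNReal.ofReal (2 * (K - L / 2 * α) - 12 * ε)) (𝓝[>] 0)
      (𝓝 (ENNReal.ofReal (2 * (K - L / 2 * α) - 12 * 0))) := by
    refine ENNReal.tendsto_ofReal ?_
    refine tendsto_nhdsWithin_of_tendsto_nhds ?_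
    exact (continuous_const.sub (continuous_const.mul continuous_id)).tendsto 0
  rw [mul_zero, sub_zero] at h5
  refine le_of_tendsto h5 ?_
  filter_upwards [self_mem_nhdsWithin] with ε hε
  exact h1 ε hε

lemma g_eq {x : ℝ} (hx : 2 < x) : (x - 1) / (x * (x - 2)) = Kc x - Lc x / 2 * x := by
  have h1 : 0 < x - 2 := by linarith
  have h2 : 0 < x := by linarith
  unfold Kc Lc
  field_simp
  ring

/-- The root `x₀` of `x³ - 4x² + 3x - 2` in `[3, 4]`. -/
lemma exists_root : ∃ x : ℝ, 3 ≤ x ∧ x ^ 3 - 4 * x ^ 2 + 3 * x - 2 = 0 := by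
  have hc : ContinuousOn (fun x : ℝ => x ^ 3 - 4 * x ^ 2 + 3 * x - 2) (Set.Icc 3 4) := by
    fun_prop
  have h := intermediate_value_Icc (show (3 : ℝ) ≤ 4 by norm_num) hc
  have h0 : (0 : ℝ) ∈ Set.Icc ((3 : ℝ) ^ 3 - 4 * 3 ^ 2 + 3 * 3 - 2)
      ((4 : ℝ) ^ 3 - 4 * 4 ^ 2 + 3 * 4 - 2) := by
    norm_num
  obtain ⟨x, hx, hx0⟩ := h h0
  exact ⟨x, hx.1, hx0⟩

/-- Full answer: `a(α) ≥ 2 f(α)` for every real `α ≥ 2`. -/
theorem main {α : ℝ} (hα : 2 ≤ α) : ENNReal.ofReal (2 * cmpFun α) ≤ aLim α := by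
  obtain ⟨x₀, hx3, hx0⟩ := exists_root
  have hx2 : 2 < x₀ := by linarith
  have hne : {t : ℝ | ∃ h : ℝ → ℝ, ConvexOn ℝ (Set.Ici 2) h ∧ h 2 ≤ 1 ∧
      (∀ y, 2 < y → h y ≤ (y - 1) / (y * (y - 2))) ∧ t = h α}.Nonempty := by
    refine ⟨0, fun _ => 0, convexOn_const 0 (convex_Ici 2), zero_le_one, fun y hy => ?_, rfl⟩
    have h1 : 0 < y - 2 := by linarith
    have h2 : 0 < y - 1 := by linarith
    have h3 : 0 < y := by linarith
    positivity
  rcases le_or_gt x₀ α with h | h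
  · -- tangent line at α
    have hα2 : 2 < α := by linarith
    have hpoly : 0 ≤ α ^ 3 - 4 * α ^ 2 + 3 * α - 2 := by
      have e : α ^ 3 - 4 * α ^ 2 + 3 * α - 2 = (x₀ ^ 3 - 4 * x₀ ^ 2 + 3 * x₀ - 2)
          + (α - x₀) * (α ^ 2 + α * x₀ + x₀ ^ 2 - 4 * (α + x₀) + 3) := by ring
      rw [e, hx0, zero_add]
      apply mul_nonneg (by linarith)
      nlinarith
    have hP := par_of (by linarith : 3 ≤ α) hpoly
    have hcmp : cmpFun α ≤ Kc α - Lc α / 2 * α := by
      refine csSup_le hne ?_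
      rintro t ⟨f, -, -, hy, rfl⟩
      rw [← g_eq hα2]
      exact hy α hα2
    refine le_trans (ENNReal.ofReal_le_ofReal ?_) (aLim_ge hP α)
    linarith
  · -- the line through (2, 1)
    have hP := par_of hx3 hx0.ge
    have hcmp : cmpFun α ≤ Kc x₀ - Lc x₀ / 2 * α := by
      refine csSup_le hne ?_
      rintro t ⟨f, hconv, h2, hy, rfl⟩
      have hg := hy x₀ hx2
      rw [g_eq hx2] at hg
      have hd : 0 < x₀ - 2 := by linarith
      have hw1 : 0 ≤ (x₀ - α) / (x₀ - 2) := div_nonneg (by linarith) hd.le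
      have hw2 : 0 ≤ (α - 2) / (x₀ - 2) := div_nonneg (by linarith) hd.le
      have hw3 : (x₀ - α) / (x₀ - 2) + (α - 2) / (x₀ - 2) = 1 := by
        rw [← add_div, div_eq_one_iff_eq hd.ne']
        ring
      have hc2 := hconv.2
      have hcv := hc2 (Set.mem_Ici.mpr (le_refl (2 : ℝ))) (Set.mem_Ici.mpr hx2.le) hw1 hw2 hw3
      have e1 : (x₀ - α) / (x₀ - 2) * 2 + (α - 2) / (x₀ - 2) * x₀ = α := by
        field_simp
        ring
      simp only [smul_eq_mul] at hcv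
      rw [e1] at hcv
      have hk : Kc x₀ - Lc x₀ = 1 := by
        have e2 : Kc x₀ - Lc x₀ = ((x₀ - 1) * (x₀ - 2) + x₀ ^ 2) / (x₀ ^ 2 * (x₀ - 2)) := by
          unfold Kc Lc
          field_simp
          ring
        rw [e2, div_eq_one_iff_eq (by positivity)]
        nlinarith
      have h3 : (x₀ - α) / (x₀ - 2) * f 2 + (α - 2) / (x₀ - 2) * f x₀
          ≤ (x₀ - α) / (x₀ - 2) * 1 + (α - 2) / (x₀ - 2) * (Kc x₀ - Lc x₀ / 2 * x₀) := by
        have h4 : 0 ≤ (x₀ - α) / (x₀ - 2) := div_nonneg (by linarith) hd.le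
        have h5 : 0 ≤ (α - 2) / (x₀ - 2) := div_nonneg (by linarith) hd.le
        gcongr
      have h6 : (x₀ - α) / (x₀ - 2) * 1 + (α - 2) / (x₀ - 2) * (Kc x₀ - Lc x₀ / 2 * x₀)
          = Kc x₀ - Lc x₀ / 2 * α := by
        have hK : Kc x₀ = 1 + Lc x₀ := by linarith
        rw [hK]
        field_simp
        ring
      linarith
    refine le_trans (ENNReal.ofReal_le_ofReal ?_) (aLim_ge hP α)
    linarith

end Pool.Agent.Lib.MP_cf7718_co
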